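import Pool.Agent.E8helper50.SR.S0

/-!
# Project SR (MP_1a662b_al): definitions and statements of the pieces (helper50)

Superalgebras need not be unital.  `Sat A f`: the superization (Koszul sign rule) of the
multilinear polynomial `f` holds in `A`; equivalently the Grassmann envelope of `A`
satisfies `f`.
-/

set_option autoImplicit false

universe u v

namespace Pool.Agent.E8helper50.SR

/-- The Koszul sign of the permutation `σ` of letters of parities `p`: the product of `-1` over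
all inversions of the word `σ 0, σ 1, …` both of whose letters are odd. -/
def ksgn {n : ℕ} (p : Fin n → ZMod 2) (σ : Equiv.Perm (Fin n)) : ℤ :=
  ∏ i : Fin n, ∏ j : Fin n, if i < j ∧ σ j < σ i ∧ p (σ i) = 1 ∧ p (σ j) = 1 then -1 else 1

/-- evaluation of the superization of `f` at elements of parities `p` -/
def sev {F : Type u} [Field F] {R : Type v} [NonUnitalRing R] [Module F R] (f : MPoly F)
    (p : Fin (f.n + 1) → ZMod 2) (a : Fin (f.n + 1) → R) : R :=
  ∑ σ : Equiv.Perm (Fin (f.n + 1)), (f.c σ * ((ksgn p σ : ℤ) : F)) • wprod f.n (fun i => a (σ i))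

/-- `A` satisfies the superization of `f` -/
def Sat {F : Type u} [Field F] (A : SAlg F) (f : MPoly F) : Prop :=
  ∀ (p : Fin (f.n + 1) → ZMod 2) (a : Fin (f.n + 1) → A), (∀ i, a i ∈ A.gr (p i)) →
    sev f p a = 0

/-- parity of a word in the free generators -/
def wpar {r s : ℕ} (w : FreeSemigroup (Fin r ⊕ Fin s)) : ZMod 2 :=
  Multiplicative.toAdd (FreeSemigroup.lift (fun x => Multiplicative.ofAdd (gpar x)) w)

/-- the free (non-unital, associative) algebra on `r + s` generators -/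
abbrev W (F : Type u) [Field F] (r s : ℕ) : Type u := MonoidAlgebra F (FreeSemigroup (Fin r ⊕ Fin s))

/-- its homogeneous parts -/
noncomputable def Wgr (F : Type u) [Field F] (r s : ℕ) (p : ZMod 2) : Submodule F (W F r s) :=
  Submodule.span F {m | ∃ w : FreeSemigroup (Fin r ⊕ Fin s), wpar w = p ∧ m = MonoidAlgebra.single w 1}

/-- evaluation of an element of the free algebra at elements `x` of an algebra -/
noncomputable def wev {F : Type u} [Field F] {r s : ℕ} (B : SAlg F) (x : Fin r ⊕ Fin s → B) :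
    W F r s →ₙₐ[F] B :=
  MonoidAlgebra.liftMagma F (FreeSemigroup.lift x)

/-- `B` is a `V`-superalgebra, for the variety `V` with set of multilinear identities `T` -/
def IsV {F : Type u} [Field F] (T : Set (MPoly F)) (B : SAlg F) : Prop := ∀ f ∈ T, Sat B f

/-- The relations of the free `V`-superalgebra on `r` even and `s` odd generators. -/
def Rel {F : Type u} [Field F] (T : Set (MPoly F)) (r s : ℕ) : Set (W F r s) :=
  {w | ∀ B : SAlg F, IsV T B → ∀ x : Fin r ⊕ Fin s → B, (∀ i, x i ∈ B.gr (gpar i)) → wev B x w = 0}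

/-- The free `V`-superalgebra `W / Rel` on `r` even and `s` odd generators satisfies the
superization of `f`. -/
def FreeSat {F : Type u} [Field F] (T : Set (MPoly F)) (r s : ℕ) (f : MPoly F) : Prop :=
  ∀ (p : Fin (f.n + 1) → ZMod 2) (w : Fin (f.n + 1) → W F r s), (∀ i, w i ∈ Wgr F r s (p i)) →
    sev f p w ∈ Rel T r s

/-- `V = var (G (F_{r,s}(V)))` -/
def Gen {F : Type u} [Field F] (T : Set (MPoly F)) (r s : ℕ) : Prop :=
  ∀ f : MPoly F, FreeSat T r s f ↔ f ∈ T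

/-- `(r, s)` is a basic superrank -/
def IsBSR {F : Type u} [Field F] (T : Set (MPoly F)) (q : ℕ × ℕ) : Prop :=
  Gen T q.1 q.2 ∧ ∀ q' : ℕ × ℕ, q' ≠ q → q'.1 ≤ q.1 → q'.2 ≤ q.2 → ¬ Gen T q'.1 q'.2

/-- the multilinear identities of (the Grassmann envelope of) `A` -/
def Id {F : Type u} [Field F] (A : SAlg F) : Set (MPoly F) := {f | Sat A f}

/-- extension of the coefficients of a polynomial -/
def MPoly.map {F K : Type u} [Field F] [Field K] [Algebra F K] (f : MPoly F) : MPoly K where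
  n := f.n
  c := fun σ => algebraMap F K (f.c σ)

/-! ## The pieces -/

/-- piece MAT: products of matrix algebras, and their ideals, are generated by two elements. -/
def S_MAT : Prop :=
  ∀ (K : Type u) [Field K] [Infinite K] (m : ℕ) (d : Fin m → ℕ)
    (I : Submodule K (∀ i : Fin m, Matrix (Fin (d i)) (Fin (d i)) K)),
    (∀ a, ∀ z ∈ I, a * z ∈ I ∧ z * a ∈ I) →
    ∃ b1 ∈ I, ∃ b2 ∈ I, ∀ x ∈ I, x ∈ NonUnitalAlgebra.adjoin K {b1, b2}

/-- piece TWO: a finite-dimensional algebra is generated by two elements modulo a nilpotent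
ideal. -/
def S_TWO : Prop :=
  ∀ (K : Type u) [Field K] [IsAlgClosed K] (R : Type u) [NonUnitalRing R] [Module K R]
    [IsScalarTower K R R] [SMulCommClass K R R] [Module.Finite K R],
    ∃ (b : Fin 2 → R) (J : Submodule K R) (m : ℕ),
      (∀ a, ∀ z ∈ J, a * z ∈ J ∧ z * a ∈ J) ∧
      (∀ z : Fin (m + 1) → R, (∀ i, z i ∈ J) → wprod m z = 0) ∧
      ∀ x : R, x ∈ Submodule.span K (Set.range (FreeSemigroup.lift b)) ⊔ J

/-- piece TWA: the same for the even part of a superalgebra -/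
def S_TWA : Prop :=
  ∀ (K : Type u) [Field K] [IsAlgClosed K] (A : SAlg K) [Module.Finite K A],
    ∃ (b : Fin 2 → A) (J : Submodule K A) (m : ℕ), (∀ i, b i ∈ A.gr 0) ∧ J ≤ A.gr 0 ∧
      (∀ a ∈ A.gr 0, ∀ z ∈ J, a * z ∈ J ∧ z * a ∈ J) ∧
      (∀ z : Fin (m + 1) → A, (∀ i, z i ∈ J) → wprod m z = 0) ∧
      ∀ x ∈ A.gr 0, x ∈ Submodule.span K (Set.range (FreeSemigroup.lift b)) ⊔ J

/-- piece NIL: a product of homogeneous elements with at least `2 m + 2` factors in `J`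
vanishes, if `J` is an ideal of the even part all of whose products of `m + 1` elements
vanish. -/
def S_NIL : Prop :=
  ∀ (F : Type u) [Field F] (A : SAlg F) (J : Submodule F A) (m : ℕ), J ≤ A.gr 0 →
    (∀ a ∈ A.gr 0, ∀ z ∈ J, a * z ∈ J ∧ z * a ∈ J) →
    (∀ z : Fin (m + 1) → A, (∀ i, z i ∈ J) → wprod m z = 0) →
    ∀ (n : ℕ) (x : Fin (n + 1) → A) (D : Finset (Fin (n + 1))), (∀ i, ∃ p, x i ∈ A.gr p) →
      (∀ i ∈ D, x i ∈ J) → 2 * m + 2 ≤ D.card → wprod n x = 0

/-- piece KSG: Koszul signs when the parity of the letter `j` is changed from even to odd: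
the letters standing to the right of `j` in the word `σ`. -/
def S_KSG : Prop :=
  ∀ (n : ℕ) (p : Fin n → ZMod 2) (j : Fin n) (σ : Equiv.Perm (Fin n)), p j = 0 →
    ksgn (Function.update p j 1) σ *
      (∏ i : Fin n, if σ.symm j < σ.symm i ∧ p i = 1 then (-1 : ℤ) else 1) =
      ksgn p σ * ∏ i : Fin n, if j < i ∧ p i = 1 then (-1 : ℤ) else 1

/-- piece EPX: the superalgebra `A[ε] = A ⊕ A ε` (`ι a = a`, `κ b = b ε`), `ε` odd, `ε² = 0`,
`ε a = (-1)^{|a|} a ε`. -/
def S_EPX : Prop :=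
  ∀ (F : Type u) [Field F] (A : SAlg F), ∃ (A' : SAlg F) (ι κ : A →ₗ[F] A'),
    (∀ x y, ι (x * y) = ι x * ι y) ∧ (∀ (i : ZMod 2), ∀ x ∈ A.gr i, ι x ∈ A'.gr i) ∧
    (∀ (i : ZMod 2), ∀ x ∈ A.gr i, κ x ∈ A'.gr (i + 1)) ∧ Function.Injective κ ∧
    (∀ (i : ZMod 2), ∀ z ∈ A'.gr i, ∃ a ∈ A.gr i, ∃ b ∈ A.gr (i + 1), z = ι a + κ b) ∧
    (∀ x y, ι x * κ y = κ (x * y)) ∧ (∀ x y, κ x * κ y = 0) ∧
    (∀ x, ∀ y ∈ A.gr 0, κ x * ι y = κ (x * y)) ∧ (∀ x, ∀ y ∈ A.gr 1, κ x * ι y = - κ (x * y))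

/-- piece EPS (from EPX and KSG): adjoining one odd element `ε` with `ε² = 0`. -/
def S_EPS : Prop :=
  ∀ (F : Type u) [Field F] (A : SAlg F), ∃ (A' : SAlg F) (ι : A →ₗ[F] A'),
    (∀ x y, ι (x * y) = ι x * ι y) ∧ (∀ (i : ZMod 2), ∀ x ∈ A.gr i, ι x ∈ A'.gr i) ∧
    (∀ g : MPoly F, Sat A g → Sat A' g) ∧
    (∀ (f : MPoly F) (p : Fin (f.n + 1) → ZMod 2) (a : Fin (f.n + 1) → A) (j : Fin (f.n + 1)),
      (∀ i, a i ∈ A.gr (p i)) → p j = 0 → sev f p a ≠ 0 →
      ∃ y ∈ A'.gr 1, sev f (Function.update p j 1) (Function.update (fun i => ι (a i)) j y) ≠ 0)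

/-- piece EPM: several such elements at once (induction from EPS): the letters in `D`, even
ones, are replaced by odd elements. -/
def S_EPM : Prop :=
  ∀ (F : Type u) [Field F] (A : SAlg F) (f : MPoly F) (p : Fin (f.n + 1) → ZMod 2)
    (a : Fin (f.n + 1) → A) (D : Finset (Fin (f.n + 1))),
    (∀ i, a i ∈ A.gr (p i)) → (∀ i ∈ D, p i = 0) → sev f p a ≠ 0 →
    ∃ (A' : SAlg F) (ι : A →ₗ[F] A') (y : Fin (f.n + 1) → A'),
      (∀ x y, ι (x * y) = ι x * ι y) ∧ (∀ (i : ZMod 2), ∀ x ∈ A.gr i, ι x ∈ A'.gr i) ∧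
      (∀ g : MPoly F, Sat A g → Sat A' g) ∧ (∀ i, y i ∈ A'.gr 1) ∧
      sev f (fun i => if i ∈ D then 1 else p i) (fun i => if i ∈ D then y i else ι (a i)) ≠ 0

/-- piece SPN: if the superization of `f` does not vanish on `A`, it does not vanish on letters
from given spanning sets `B p` of the homogeneous parts. -/
def S_SPN : Prop :=
  ∀ (F : Type u) [Field F] (A : SAlg F) (f : MPoly F) (B : ZMod 2 → Set A),
    (∀ p, A.gr p ≤ Submodule.span F (B p)) → (∀ p, B p ⊆ A.gr p) → ¬ Sat A f →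
    ∃ (p : Fin (f.n + 1) → ZMod 2) (a : Fin (f.n + 1) → A), (∀ i, a i ∈ B (p i)) ∧
      sev f p a ≠ 0

/-- The conclusion of the main lemma for the superalgebra `A`. -/
def Main {F : Type u} [Field F] (A : SAlg F) : Prop :=
  ∃ N : ℕ, ∀ f : MPoly F, ¬ Sat A f → ∃ M : SAlg F, (∀ g : MPoly F, Sat A g → Sat M g) ∧
    ∃ x : Fin 2 ⊕ Fin N → M, (∀ i, x i ∈ M.gr (gpar i)) ∧
      ∃ w : Fin (f.n + 1) → FreeSemigroup (Fin 2 ⊕ Fin N),
        sev f (fun i => wpar (w i)) (fun i => FreeSemigroup.lift x (w i)) ≠ 0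

/-- piece ASM (to be proved from TWA, NIL, EPM, SPN) -/
def S_ASM : Prop :=
  ∀ (K : Type u) [Field K] [IsAlgClosed K] (A : SAlg K) [Module.Finite K A], Main A

/-- piece BC: scalar extension -/
def S_BC : Prop :=
  ∀ (F K : Type u) [Field F] [Field K] [Algebra F K] (A : SAlg F) [Module.Finite F A],
    ∃ (A' : SAlg K), Module.Finite K A' ∧ ∀ f : MPoly F, Sat A f ↔ Sat A' f.map

/-- piece RS: scalar restriction of an evaluation -/
def S_RS : Prop :=
  ∀ (F K : Type u) [Field F] [Field K] [Algebra F K] (M : SAlg K),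
    ∃ (M' : SAlg F) (e : M →ₙ+* M'), Function.Injective e ∧
      (∀ (i : ZMod 2), ∀ x ∈ M.gr i, e x ∈ M'.gr i) ∧
      (∀ f : MPoly F, Sat M f.map → Sat M' f) ∧
      ∀ (f : MPoly F) (p : Fin (f.n + 1) → ZMod 2) (a : Fin (f.n + 1) → M),
        e (sev (f.map : MPoly K) p a) = sev f p (fun i => e (a i))

/-- piece MNF (from ASM, BC, RS) -/
def S_MNF : Prop := ∀ (F : Type u) [Field F] (A : SAlg F) [Module.Finite F A], Main A

/-- piece FIN (from MNF) -/
def S_FIN : Prop :=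
  ∀ (F : Type u) [Field F] (A : SAlg F) [Module.Finite F A],
    (∃ N : ℕ, Gen (Id A) 2 N) ∧ ∀ r s : ℕ, 3 ≤ r → {q : ℕ × ℕ | IsBSR (Id A) q} ≠ {(r, s)}

end Pool.Agent.E8helper50.SR
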