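import Pool.Agent.E8helper50.SR.S

/-!
# Project SR, piece ASM (helper50)
-/

set_option autoImplicit false

universe u

namespace Pool.Agent.E8helper50.SR

theorem zmod2_cases (q : ZMod 2) : q = 0 ∨ q = 1 := by
  revert q; decide

theorem lift_mem_even {F : Type u} [Field F] (A : SAlg F) {α : Type*} (b : α → A)
    (hb : ∀ i, b i ∈ A.gr 0) (v : FreeSemigroup α) : FreeSemigroup.lift b v ∈ A.gr 0 := by
  induction v using FreeSemigroup.recOnMul with
  | ih1 x => simpa using hb x
  | ih2 x y hx hy =>
    rw [map_mul]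
    have := A.mul_mem 0 0 _ _ (by simpa using hb x) hy
    simpa using this

theorem wpar_of {r s : ℕ} (i : Fin r ⊕ Fin s) : wpar (FreeSemigroup.of i) = gpar i := by
  simp [wpar]

theorem wpar_mul {r s : ℕ} (v w : FreeSemigroup (Fin r ⊕ Fin s)) :
    wpar (v * w) = wpar v + wpar w := by
  simp [wpar]

theorem wpar_inl {r s : ℕ} (v : FreeSemigroup (Fin r)) :
    wpar (FreeSemigroup.map (Sum.inl : Fin r → Fin r ⊕ Fin s) v) = 0 := by
  induction v using FreeSemigroup.recOnMul with
  | ih1 x => simp [wpar_of, gpar]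
  | ih2 x y hx hy =>
    rw [map_mul, wpar_mul, hy]
    simp [wpar_of, gpar]

theorem lift_map_inl {R : Type*} [Semigroup R] {α β : Type*} (x : α ⊕ β → R)
    (v : FreeSemigroup α) :
    FreeSemigroup.lift x (FreeSemigroup.map Sum.inl v) =
      FreeSemigroup.lift (fun i => x (Sum.inl i)) v := by
  induction v using FreeSemigroup.recOnMul with
  | ih1 y => simp
  | ih2 y z hx hy =>
    rw [map_mul, map_mul, map_mul, hy]
    simp

theorem map_lift {F : Type u} [Field F] {A A' : SAlg F} (ι : A →ₗ[F] A')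
    (hι : ∀ x y, ι (x * y) = ι x * ι y) {α : Type*} (b : α → A) (v : FreeSemigroup α) :
    ι (FreeSemigroup.lift b v) = FreeSemigroup.lift (fun i => ι (b i)) v := by
  induction v using FreeSemigroup.recOnMul with
  | ih1 y => simp
  | ih2 y z hx hy =>
    rw [map_mul (FreeSemigroup.lift b), hι, hy, hx, ← map_mul]

/-- ASM -/
theorem t_ASM : S_TWA.{u} → S_NIL.{u} → S_EPM.{u} → S_SPN.{u} → S_ASM.{u} := by
  intro hTWA hNIL hEPM hSPN K _ _ A _
  classical
  obtain ⟨b, J, m, hb, hJ0, hJi, hJn, hsp⟩ := hTWA K A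
  let d := Module.finrank K (A.gr 1)
  let e := Module.finBasis K (A.gr 1)
  let B : ZMod 2 → Set A := fun p =>
    if p = 0 then Set.range (FreeSemigroup.lift b) ∪ (J : Set A) else Set.range (fun i => (e i : A))
  have hB0 : B 0 = Set.range (FreeSemigroup.lift b) ∪ (J : Set A) := by simp [B]
  have hB1 : B 1 = Set.range (fun i => (e i : A)) := by simp [B]
  have hBspan : ∀ p, A.gr p ≤ Submodule.span K (B p) := by
    intro p
    rcases zmod2_cases p with rfl | rfl
    · intro x hx
      rw [hB0, Submodule.span_union, Submodule.span_eq]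
      exact hsp x hx
    · intro x hx
      rw [hB1]
      have h1 : (⟨x, hx⟩ : A.gr 1) ∈ Submodule.span K (Set.range e) := by
        rw [e.span_eq]; trivial
      have h2 := Submodule.mem_map_of_mem (f := (A.gr 1).subtype) h1
      rw [Submodule.map_span] at h2
      have h3 : (A.gr 1).subtype '' Set.range e = Set.range (fun i => (e i : A)) := by
        ext z; simp
      rw [h3] at h2
      exact h2
  have hBsub : ∀ p, B p ⊆ A.gr p := by
    intro p
    rcases zmod2_cases p with rfl | rfl
    · rw [hB0]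
      rintro x (⟨v, rfl⟩ | hx)
      · exact lift_mem_even A b hb v
      · exact hJ0 hx
    · rw [hB1]
      rintro x ⟨i, rfl⟩
      exact (e i).2
  refine ⟨d + (2 * m + 1), fun f hf => ?_⟩
  obtain ⟨p, a, ha, hne⟩ := hSPN K A f B hBspan hBsub hf
  let D : Finset (Fin (f.n + 1)) := Finset.univ.filter (fun i => p i = 0 ∧ a i ∈ J)
  have hD : ∀ i, i ∈ D ↔ (p i = 0 ∧ a i ∈ J) := by
    intro i; simp [D]
  have hcard : D.card ≤ 2 * m + 1 := by
    by_contra hlt
    push Not at hlt
    apply hne
    unfold sev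
    apply Finset.sum_eq_zero
    intro σ _
    have h0 : wprod f.n (fun i => a (σ i)) = 0 := by
      refine hNIL K A J m hJ0 hJi hJn f.n (fun i => a (σ i)) (D.map σ.symm.toEmbedding)
        (fun i => ⟨p (σ i), hBsub _ (ha (σ i))⟩) ?_ (by rw [Finset.card_map]; omega)
      intro i hi
      rw [Finset.mem_map_equiv, Equiv.symm_symm] at hi
      exact ((hD _).1 hi).2
    rw [h0, smul_zero]
  obtain ⟨A', ι, y, hmul, hgr, hsat, hy, hne'⟩ :=
    hEPM K A f p a D (fun i => hBsub _ (ha i)) (fun i hi => ((hD i).1 hi).1) hne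
  let yy : Fin (2 * m + 1) → A' := fun t =>
    if h : t.val < D.card then y (D.equivFin.symm ⟨t.val, h⟩) else 0
  have hyy : ∀ t, yy t ∈ A'.gr 1 := by
    intro t
    by_cases h : t.val < D.card
    · simp only [yy, h, dif_pos]; exact hy _
    · simp only [yy, h, dif_neg, not_false_eq_true]; exact Submodule.zero_mem _
  let x : Fin 2 ⊕ Fin (d + (2 * m + 1)) → A' :=
    Sum.elim (fun k => ι (b k)) (Fin.addCases (fun k => ι (e k : A)) yy)
  refine ⟨A', hsat, x, ?_, ?_⟩
  · rintro (k | t)
    · exact hgr 0 _ (hb k)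
    · refine Fin.addCases (fun k => ?_) (fun t => ?_) t
      · simp only [x, Sum.elim_inr, Fin.addCases_left, gpar]
        exact hgr 1 _ (e k).2
      · simp only [x, Sum.elim_inr, Fin.addCases_right, gpar]
        exact hyy t
  · have key : ∀ i, ∃ w : FreeSemigroup (Fin 2 ⊕ Fin (d + (2 * m + 1))),
        wpar w = (if i ∈ D then 1 else p i) ∧
        FreeSemigroup.lift x w = (if i ∈ D then y i else ι (a i)) := by
      intro i
      by_cases hi : i ∈ D
      · have hlt : (D.equivFin ⟨i, hi⟩).val < 2 * m + 1 :=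
          lt_of_lt_of_le (D.equivFin ⟨i, hi⟩).2 hcard
        refine ⟨FreeSemigroup.of (Sum.inr (Fin.natAdd d ⟨(D.equivFin ⟨i, hi⟩).val, hlt⟩)), ?_, ?_⟩
        · rw [wpar_of, if_pos hi]; rfl
        · rw [FreeSemigroup.lift_of, if_pos hi]
          simp only [x, Sum.elim_inr, Fin.addCases_right, yy]
          rw [dif_pos (D.equivFin ⟨i, hi⟩).2]
          simp
      · rcases zmod2_cases (p i) with hp | hp
        · have h1 : a i ∈ B (p i) := ha i
          rw [hp, hB0] at h1
          rcases h1 with ⟨v, hv⟩ | h1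
          · refine ⟨FreeSemigroup.map Sum.inl v, ?_, ?_⟩
            · rw [wpar_inl, if_neg hi, hp]
            · rw [lift_map_inl, if_neg hi, ← hv, map_lift ι hmul]
              rfl
          · exact absurd ((hD i).2 ⟨hp, h1⟩) hi
        · have h1 : a i ∈ B (p i) := ha i
          rw [hp, hB1] at h1
          obtain ⟨k, hk⟩ := h1
          refine ⟨FreeSemigroup.of (Sum.inr (Fin.castAdd _ k)), ?_, ?_⟩
          · rw [wpar_of, if_neg hi, hp]; rfl
          · rw [FreeSemigroup.lift_of, if_neg hi, ← hk]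
            simp only [x, Sum.elim_inr, Fin.addCases_left]
    choose w hw1 hw2 using key
    refine ⟨w, ?_⟩
    have e1 : (fun i => wpar (w i)) = (fun i => if i ∈ D then (1 : ZMod 2) else p i) :=
      funext hw1
    have e2 : (fun i => FreeSemigroup.lift x (w i)) = (fun i => if i ∈ D then y i else ι (a i)) :=
      funext hw2
    rw [e1, e2]
    exact hne'

end Pool.Agent.E8helper50.SR
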