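import Pool.Agent.E8helper50.SR.S4
import Pool.Agent.E8helper50.SR.ASM

/-!
# Project SR, piece AS2 (helper50)
-/

set_option autoImplicit false

universe u

namespace Pool.Agent.E8helper50.SR

/-- AS2 -/
theorem t_AS2 : S_ONE.{u} → S_EPT.{u} → S_SPN.{u} → S_AS2.{u} := by
  intro hONE hEPT hSPN K _ _ A _
  classical
  obtain ⟨y0, hy0, J, m, hJ1, hJn, hsp⟩ := hONE K A
  let d := Module.finrank K (A.gr 0)
  let e := Module.finBasis K (A.gr 0)
  have he : ∀ a ∈ A.gr 0, a ∈ Submodule.span K (Set.range (fun i => (e i : A))) := by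
    intro a ha
    have h1 : (⟨a, ha⟩ : A.gr 0) ∈ Submodule.span K (Set.range e) := by
      rw [e.span_eq]; trivial
    have h2 := Submodule.mem_map_of_mem (f := (A.gr 0).subtype) h1
    rw [Submodule.map_span] at h2
    have h3 : (A.gr 0).subtype '' Set.range e = Set.range (fun i => (e i : A)) := by
      ext z; simp
    rw [h3] at h2
    exact h2
  let C : Set A := {z | ∃ k l, z = (e k : A) * y0 * (e l : A)}
  let B : ZMod 2 → Set A := fun p =>
    if p = 0 then Set.range (fun i => (e i : A)) else C ∪ (J : Set A)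
  have hB0 : B 0 = Set.range (fun i => (e i : A)) := by simp [B]
  have hB1 : B 1 = C ∪ (J : Set A) := by simp [B]
  have hC' : ∀ a ∈ Submodule.span K (Set.range (fun i => (e i : A))),
      ∀ b ∈ Submodule.span K (Set.range (fun i => (e i : A))),
      a * y0 * b ∈ Submodule.span K C := by
    intro a ha b hb
    induction ha using Submodule.span_induction with
    | mem a h =>
      obtain ⟨k, rfl⟩ := h
      induction hb using Submodule.span_induction with
      | mem b h =>
        obtain ⟨l, rfl⟩ := h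
        exact Submodule.subset_span ⟨k, l, rfl⟩
      | zero => rw [mul_zero]; exact Submodule.zero_mem _
      | add a b _ _ h1 h2 => rw [mul_add]; exact Submodule.add_mem _ h1 h2
      | smul c a _ h1 => rw [mul_smul_comm]; exact Submodule.smul_mem _ _ h1
    | zero => rw [zero_mul, zero_mul]; exact Submodule.zero_mem _
    | add a b _ _ h1 h2 => rw [add_mul, add_mul]; exact Submodule.add_mem _ h1 h2
    | smul c a _ h1 => rw [smul_mul_assoc, smul_mul_assoc]; exact Submodule.smul_mem _ _ h1
  have hC : ∀ a ∈ A.gr 0, ∀ b ∈ A.gr 0, a * y0 * b ∈ Submodule.span K C :=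
    fun a ha b hb => hC' a (he a ha) b (he b hb)
  have hBspan : ∀ p, A.gr p ≤ Submodule.span K (B p) := by
    intro p
    rcases zmod2_cases p with rfl | rfl
    · intro x hx
      rw [hB0]
      exact he x hx
    · intro x hx
      rw [hB1, Submodule.span_union, Submodule.span_eq]
      have h1 := hsp x hx
      have h2 : Submodule.span K {z : A | ∃ a ∈ A.gr 0, ∃ b ∈ A.gr 0, z = a * y0 * b} ⊔ J ≤
          Submodule.span K C ⊔ J := by
        refine sup_le_sup_right (Submodule.span_le.2 ?_) J
        rintro _ ⟨a, ha, b, hb, rfl⟩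
        exact hC a ha b hb
      exact h2 h1
  have hBsub : ∀ p, B p ⊆ A.gr p := by
    intro p
    rcases zmod2_cases p with rfl | rfl
    · rw [hB0]
      rintro x ⟨i, rfl⟩
      exact (e i).2
    · rw [hB1]
      rintro x (⟨k, l, rfl⟩ | hx)
      · have h1 := A.mul_mem _ _ _ _ (A.mul_mem _ _ _ _ (e k).2 hy0) (e l).2
        have h2 : (0 : ZMod 2) + 1 + 0 = 1 := by decide
        rw [h2] at h1
        exact h1
      · exact hJ1 hx
  refine ⟨d + m, fun f hf => ?_⟩
  obtain ⟨p, a, ha, hne⟩ := hSPN K A f B hBspan hBsub hf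
  let D : Finset (Fin (f.n + 1)) := Finset.univ.filter (fun i => p i = 1 ∧ a i ∈ J)
  have hD : ∀ i, i ∈ D ↔ (p i = 1 ∧ a i ∈ J) := by
    intro i; simp [D]
  have hcard : D.card ≤ m := by
    by_contra hlt
    push Not at hlt
    apply hne
    unfold sev
    apply Finset.sum_eq_zero
    intro σ _
    have h0 : wprod f.n (fun i => a (σ i)) = 0 := by
      refine hJn f.n (fun i => a (σ i)) (D.map σ.symm.toEmbedding) ?_
        (by rw [Finset.card_map]; omega)
      intro i hi
      rw [Finset.mem_map_equiv, Equiv.symm_symm] at hi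
      exact ((hD _).1 hi).2
    rw [h0, smul_zero]
  obtain ⟨A', ι, y, hmul, hgr, hsat, hy, hne'⟩ :=
    hEPT K A f p a D (fun i => hBsub _ (ha i)) (fun i hi => ((hD i).1 hi).1) hne
  let yy : Fin m → A' := fun t =>
    if h : t.val < D.card then y (D.equivFin.symm ⟨t.val, h⟩) else 0
  have hyy : ∀ t, yy t ∈ A'.gr 0 := by
    intro t
    by_cases h : t.val < D.card
    · simp only [yy, h, dif_pos]; exact hy _
    · simp only [yy, h, dif_neg, not_false_eq_true]; exact Submodule.zero_mem _
  let x : Fin (d + m) ⊕ Fin 1 → A' :=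
    Sum.elim (Fin.addCases (fun k => ι (e k : A)) yy) (fun _ => ι y0)
  have hxk : ∀ k, x (Sum.inl (Fin.castAdd m k)) = ι (e k : A) := by
    intro k
    simp only [x, Sum.elim_inl, Fin.addCases_left]
  refine ⟨A', hsat, x, ?_, ?_⟩
  · rintro (t | k)
    · refine Fin.addCases (fun k => ?_) (fun t => ?_) t
      · simp only [x, Sum.elim_inl, Fin.addCases_left, gpar]
        exact hgr 0 _ (e k).2
      · simp only [x, Sum.elim_inl, Fin.addCases_right, gpar]
        exact hyy t
    · exact hgr 1 _ hy0
  · have key : ∀ i, ∃ w : FreeSemigroup (Fin (d + m) ⊕ Fin 1),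
        wpar w = (if i ∈ D then 0 else p i) ∧
        FreeSemigroup.lift x w = (if i ∈ D then y i else ι (a i)) := by
      intro i
      by_cases hi : i ∈ D
      · have hlt : (D.equivFin ⟨i, hi⟩).val < m :=
          lt_of_lt_of_le (D.equivFin ⟨i, hi⟩).2 hcard
        refine ⟨FreeSemigroup.of (Sum.inl (Fin.natAdd d ⟨(D.equivFin ⟨i, hi⟩).val, hlt⟩)), ?_, ?_⟩
        · rw [wpar_of, if_pos hi]; rfl
        · rw [FreeSemigroup.lift_of, if_pos hi]
          simp only [x, Sum.elim_inl, Fin.addCases_right, yy]
          rw [dif_pos (D.equivFin ⟨i, hi⟩).2]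
          simp
      · rcases zmod2_cases (p i) with hp | hp
        · have h1 : a i ∈ B (p i) := ha i
          rw [hp, hB0] at h1
          obtain ⟨k, hk⟩ := h1
          refine ⟨FreeSemigroup.of (Sum.inl (Fin.castAdd _ k)), ?_, ?_⟩
          · rw [wpar_of, if_neg hi, hp]; rfl
          · rw [FreeSemigroup.lift_of, if_neg hi, ← hk, hxk]
        · have h1 : a i ∈ B (p i) := ha i
          rw [hp, hB1] at h1
          rcases h1 with ⟨k, l, hkl⟩ | h1
          · refine ⟨FreeSemigroup.of (Sum.inl (Fin.castAdd _ k)) *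
              FreeSemigroup.of (Sum.inr 0) * FreeSemigroup.of (Sum.inl (Fin.castAdd _ l)), ?_, ?_⟩
            · rw [wpar_mul, wpar_mul, wpar_of, wpar_of, wpar_of, if_neg hi, hp]
              show (0 : ZMod 2) + 1 + 0 = 1
              decide
            · rw [map_mul, map_mul, FreeSemigroup.lift_of, FreeSemigroup.lift_of,
                FreeSemigroup.lift_of, if_neg hi, hkl, hmul, hmul, hxk, hxk]
              rfl
          · exact absurd ((hD i).2 ⟨hp, h1⟩) hi
    choose w hw1 hw2 using key
    refine ⟨w, ?_⟩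
    have e1 : (fun i => wpar (w i)) = (fun i => if i ∈ D then (0 : ZMod 2) else p i) :=
      funext hw1
    have e2 : (fun i => FreeSemigroup.lift x (w i)) = (fun i => if i ∈ D then y i else ι (a i)) :=
      funext hw2
    rw [e1, e2]
    exact hne'

end Pool.Agent.E8helper50.SR
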