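import Pool.Agent.E8helper50.SR.S2
import Pool.Agent.E8helper50.SR.ASM
import Pool.Agent.E8helper51.SR.FIN

/-!
# Project SR, piece FRE: the free superalgebra of a variety (helper50)
-/

set_option autoImplicit false

universe u

namespace Pool.Agent.E8helper50.SR

open Pool.Agent.E8helper51.SR (wev_sev wev_single wev_mem map_sev)

section

variable {F : Type u} [Field F] (T : Set (MPoly F)) (r s : ℕ)

/-- `Rel` as a submodule -/
def RelS : Submodule F (W F r s) where
  carrier := Rel T r s
  add_mem' := by
    intro a b ha hb B hB x hx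
    rw [map_add, ha B hB x hx, hb B hB x hx, add_zero]
  zero_mem' := by
    intro B _ x _
    exact map_zero _
  smul_mem' := by
    intro c a ha B hB x hx
    rw [map_smul, ha B hB x hx, smul_zero]

theorem relS_mul_left (a : W F r s) {b : W F r s} (hb : b ∈ RelS T r s) :
    a * b ∈ RelS T r s := by
  intro B hB x hx
  rw [map_mul, hb B hB x hx, mul_zero]

theorem relS_mul_right {a : W F r s} (b : W F r s) (ha : a ∈ RelS T r s) :
    a * b ∈ RelS T r s := by
  intro B hB x hx
  rw [map_mul, ha B hB x hx, zero_mul]

/-- the carrier of the free superalgebra -/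
def FQ : Type u := W F r s ⧸ RelS T r s

noncomputable instance : AddCommGroup (FQ T r s) :=
  inferInstanceAs (AddCommGroup (W F r s ⧸ RelS T r s))

noncomputable instance : Module F (FQ T r s) :=
  inferInstanceAs (Module F (W F r s ⧸ RelS T r s))

/-- the quotient map -/
noncomputable def fmk : W F r s →ₗ[F] FQ T r s := (RelS T r s).mkQ

theorem fmk_surjective : Function.Surjective (fmk T r s) := Submodule.mkQ_surjective _

theorem fmk_eq_zero {a : W F r s} : fmk T r s a = 0 ↔ a ∈ RelS T r s :=
  Submodule.Quotient.mk_eq_zero _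

theorem fmk_eq {a b : W F r s} : fmk T r s a = fmk T r s b ↔ a - b ∈ RelS T r s :=
  Submodule.Quotient.eq _

/-- multiplication by a representative -/
noncomputable def fmul : FQ T r s → FQ T r s → FQ T r s := fun a b =>
  fmk T r s ((fmk_surjective T r s a).choose * (fmk_surjective T r s b).choose)

theorem fmul_mk (a b : W F r s) : fmul T r s (fmk T r s a) (fmk T r s b) = fmk T r s (a * b) := by
  unfold fmul
  rw [fmk_eq]
  have ha := (fmk_surjective T r s (fmk T r s a)).choose_spec
  have hb := (fmk_surjective T r s (fmk T r s b)).choose_spec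
  set a' := (fmk_surjective T r s (fmk T r s a)).choose
  set b' := (fmk_surjective T r s (fmk T r s b)).choose
  rw [fmk_eq] at ha hb
  have e : a' * b' - a * b = (a' - a) * b' + a * (b' - b) := by
    rw [sub_mul, mul_sub]; abel
  rw [e]
  exact Submodule.add_mem _ (relS_mul_right T r s _ ha) (relS_mul_left T r s _ hb)

noncomputable instance : Mul (FQ T r s) := ⟨fmul T r s⟩

theorem fmk_mul (a b : W F r s) : fmk T r s (a * b) = fmk T r s a * fmk T r s b :=
  (fmul_mk T r s a b).symm

noncomputable instance instNR : NonUnitalRing (FQ T r s) :=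
  { (inferInstance : AddCommGroup (FQ T r s)), (inferInstance : Mul (FQ T r s)) with
    left_distrib := by
      intro a b c
      obtain ⟨a, rfl⟩ := fmk_surjective T r s a
      obtain ⟨b, rfl⟩ := fmk_surjective T r s b
      obtain ⟨c, rfl⟩ := fmk_surjective T r s c
      rw [← map_add, ← fmk_mul, ← fmk_mul, ← fmk_mul, ← map_add, mul_add]
    right_distrib := by
      intro a b c
      obtain ⟨a, rfl⟩ := fmk_surjective T r s a
      obtain ⟨b, rfl⟩ := fmk_surjective T r s b
      obtain ⟨c, rfl⟩ := fmk_surjective T r s c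
      rw [← map_add, ← fmk_mul, ← fmk_mul, ← fmk_mul, ← map_add, add_mul]
    zero_mul := by
      intro a
      obtain ⟨a, rfl⟩ := fmk_surjective T r s a
      rw [← map_zero (fmk T r s), ← fmk_mul, zero_mul]
    mul_zero := by
      intro a
      obtain ⟨a, rfl⟩ := fmk_surjective T r s a
      rw [← map_zero (fmk T r s), ← fmk_mul, mul_zero]
    mul_assoc := by
      intro a b c
      obtain ⟨a, rfl⟩ := fmk_surjective T r s a
      obtain ⟨b, rfl⟩ := fmk_surjective T r s b
      obtain ⟨c, rfl⟩ := fmk_surjective T r s c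
      rw [← fmk_mul, ← fmk_mul, ← fmk_mul, ← fmk_mul, mul_assoc] }

theorem wgr_sup : Wgr F r s 0 ⊔ Wgr F r s 1 = ⊤ := by
  rw [eq_top_iff]
  intro a _
  induction a using MonoidAlgebra.induction_linear with
  | zero => exact Submodule.zero_mem _
  | add a b ha hb => exact Submodule.add_mem _ (ha trivial) (hb trivial)
  | single w c =>
    have e : (MonoidAlgebra.single w c : W F r s) = c • MonoidAlgebra.single w 1 := by
      rw [MonoidAlgebra.smul_single, smul_eq_mul, mul_one]
    rw [e]
    refine Submodule.smul_mem _ _ ?_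
    rcases zmod2_cases (wpar w) with h | h
    · exact Submodule.mem_sup_left (Submodule.subset_span ⟨w, h, rfl⟩)
    · exact Submodule.mem_sup_right (Submodule.subset_span ⟨w, h, rfl⟩)

theorem wgr_mul (i j : ZMod 2) (a b : W F r s) (ha : a ∈ Wgr F r s i) (hb : b ∈ Wgr F r s j) :
    a * b ∈ Wgr F r s (i + j) := by
  unfold Wgr at ha
  induction ha using Submodule.span_induction with
  | mem m h =>
    obtain ⟨v, hv, rfl⟩ := h
    unfold Wgr at hb
    induction hb using Submodule.span_induction with
    | mem m h =>
      obtain ⟨w, hw, rfl⟩ := h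
      rw [MonoidAlgebra.single_mul_single, one_mul]
      exact Submodule.subset_span ⟨v * w, by rw [wpar_mul, hv, hw], rfl⟩
    | zero => rw [mul_zero]; exact Submodule.zero_mem _
    | add a b _ _ ha hb => rw [mul_add]; exact Submodule.add_mem _ ha hb
    | smul c a _ ha => rw [mul_smul_comm]; exact Submodule.smul_mem _ _ ha
  | zero => rw [zero_mul]; exact Submodule.zero_mem _
  | add a b _ _ ha hb => rw [add_mul]; exact Submodule.add_mem _ ha hb
  | smul c a _ ha => rw [smul_mul_assoc]; exact Submodule.smul_mem _ _ ha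

/-- the free `V`-superalgebra -/
noncomputable def freeS : SAlg F where
  carrier := FQ T r s
  ring := instNR T r s
  mod := inferInstance
  tow := ⟨by
    intro c a b
    obtain ⟨a, rfl⟩ := fmk_surjective T r s a
    obtain ⟨b, rfl⟩ := fmk_surjective T r s b
    rw [smul_eq_mul, smul_eq_mul, ← map_smul, ← fmk_mul, ← fmk_mul, smul_mul_assoc, map_smul]⟩
  com := ⟨by
    intro c a b
    obtain ⟨a, rfl⟩ := fmk_surjective T r s a
    obtain ⟨b, rfl⟩ := fmk_surjective T r s b
    rw [smul_eq_mul, smul_eq_mul, ← map_smul, ← fmk_mul, ← fmk_mul, mul_smul_comm, map_smul]⟩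
  gr := fun p => (Wgr F r s p).map (fmk T r s)
  compl := by
    constructor
    · rw [Submodule.disjoint_def]
      rintro z ⟨a, ha, rfl⟩ ⟨b, hb, hab⟩
      rw [fmk_eq] at hab
      rw [fmk_eq_zero]
      intro B hB x hx
      have h1 := hab B hB x hx
      rw [map_sub, sub_eq_zero] at h1
      have h2 := wev_mem B x hx 0 a ha
      have h3 := wev_mem B x hx 1 b hb
      rw [h1] at h3
      exact (Submodule.disjoint_def.1 B.compl.disjoint) _ h2 h3
    · rw [codisjoint_iff, ← Submodule.map_sup, wgr_sup, Submodule.map_top,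
        LinearMap.range_eq_top]
      exact fmk_surjective T r s
  mul_mem := by
    rintro i j _ _ ⟨a, ha, rfl⟩ ⟨b, hb, rfl⟩
    exact ⟨a * b, wgr_mul r s i j a b ha hb, fmk_mul T r s a b⟩

/-- the quotient map, to the superalgebra -/
noncomputable def fpi : W F r s →ₗ[F] (freeS T r s) := fmk T r s

theorem fpi_mul (a b : W F r s) : fpi T r s (a * b) = fpi T r s a * fpi T r s b :=
  fmk_mul T r s a b

theorem fpi_eq_zero {a : W F r s} : fpi T r s a = 0 ↔ a ∈ Rel T r s :=
  fmk_eq_zero T r s

theorem fpi_surjective : Function.Surjective (fpi T r s) := fmk_surjective T r s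

theorem mem_gr (p : ZMod 2) (z : freeS T r s) :
    z ∈ (freeS T r s).gr p ↔ ∃ a ∈ Wgr F r s p, fpi T r s a = z := Iff.rfl

theorem sat_iff (f : MPoly F) : FreeSat T r s f ↔ Sat (freeS T r s) f := by
  constructor
  · intro h p a ha
    choose w hw1 hw2 using fun i => (mem_gr T r s (p i) (a i)).1 (ha i)
    have e : a = fun i => fpi T r s (w i) := funext fun i => (hw2 i).symm
    rw [e, ← map_sev (fpi T r s) (fpi_mul T r s), fpi_eq_zero]
    exact h p w hw1
  · intro h p w hw
    have h1 := h p (fun i => fpi T r s (w i)) (fun i => (mem_gr T r s _ _).2 ⟨w i, hw i, rfl⟩)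
    rw [← map_sev (fpi T r s) (fpi_mul T r s), fpi_eq_zero] at h1
    exact h1

theorem isV_free : IsV T (freeS T r s) := by
  intro f hf
  rw [← sat_iff]
  intro p w hw B hB x hx
  rw [wev_sev]
  exact hB f hf p _ (fun i => wev_mem B x hx _ _ (hw i))

/-- the free generators -/
noncomputable def fgen (i : Fin r ⊕ Fin s) : freeS T r s :=
  fpi T r s (MonoidAlgebra.single (FreeSemigroup.of i) 1)

/-- the homomorphism out of the free superalgebra -/
noncomputable def flift (B : SAlg F) (hB : IsV T B) (y : Fin r ⊕ Fin s → B)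
    (hy : ∀ i, y i ∈ B.gr (gpar i)) : freeS T r s →ₙₐ[F] B :=
  let φ : FQ T r s →ₗ[F] B := (RelS T r s).liftQ
    (⟨⟨fun w => wev B y w, fun a b => map_add _ a b⟩, fun c a => map_smul _ c a⟩ : W F r s →ₗ[F] B)
    (fun w hw => hw B hB y hy)
  { toFun := φ
    map_smul' := fun c a => map_smul φ c a
    map_zero' := map_zero φ
    map_add' := fun a b => map_add φ a b
    map_mul' := by
      intro a b
      obtain ⟨a, rfl⟩ := fmk_surjective T r s a
      obtain ⟨b, rfl⟩ := fmk_surjective T r s b
      have h : φ (fmk T r s a * fmk T r s b) = φ (fmk T r s a) * φ (fmk T r s b) := by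
        rw [← fmk_mul]
        exact map_mul (wev B y) a b
      exact h }

theorem flift_fpi (B : SAlg F) (hB : IsV T B) (y : Fin r ⊕ Fin s → B)
    (hy : ∀ i, y i ∈ B.gr (gpar i)) (a : W F r s) :
    flift T r s B hB y hy (fpi T r s a) = wev B y a := rfl

end

theorem t_FRE : S_FRE.{u} := by
  intro F _ T r s
  refine ⟨freeS T r s, fgen T r s, isV_free T r s, ?_, ?_, sat_iff T r s⟩
  · intro i
    exact (mem_gr T r s _ _).2 ⟨_, Submodule.subset_span ⟨_, wpar_of i, rfl⟩, rfl⟩
  · intro B hB y hy
    refine ⟨flift T r s B hB y hy, ⟨?_, ?_⟩, ?_⟩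
    · intro p z hz
      obtain ⟨a, ha, rfl⟩ := (mem_gr T r s _ _).1 hz
      rw [flift_fpi]
      exact wev_mem B y hy p a ha
    · intro i
      rw [fgen, flift_fpi, wev_single, FreeSemigroup.lift_of]
    · rintro φ ⟨_, hφ⟩
      have key : ∀ a : W F r s, φ (fpi T r s a) = wev B y a := by
        intro a
        induction a using MonoidAlgebra.induction_linear with
        | zero => rw [map_zero, map_zero, map_zero]
        | add a b ha hb => rw [map_add, map_add, map_add, ha, hb]
        | single w c =>
          have e : (MonoidAlgebra.single w c : W F r s) = c • MonoidAlgebra.single w 1 := by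
            rw [MonoidAlgebra.smul_single, smul_eq_mul, mul_one]
          rw [e, map_smul, map_smul, map_smul]
          congr 1
          rw [wev_single]
          induction w using FreeSemigroup.recOnMul with
          | ih1 x => rw [FreeSemigroup.lift_of]; exact hφ x
          | ih2 x v hx hv =>
            have e2 : (MonoidAlgebra.single (FreeSemigroup.of x * v) 1 : W F r s) =
                MonoidAlgebra.single (FreeSemigroup.of x) 1 * MonoidAlgebra.single v 1 := by
              rw [MonoidAlgebra.single_mul_single, one_mul]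
            have hx' : φ (fpi T r s (MonoidAlgebra.single (FreeSemigroup.of x) 1)) = y x := hφ x
            have hv' : φ (fpi T r s (MonoidAlgebra.single v 1)) = FreeSemigroup.lift y v := by
              apply hv
              rw [MonoidAlgebra.smul_single, smul_eq_mul, mul_one]
            rw [e2, fpi_mul, map_mul, hx', hv', map_mul, FreeSemigroup.lift_of]
      ext z
      obtain ⟨a, rfl⟩ := fpi_surjective T r s z
      rw [key, flift_fpi]

end Pool.Agent.E8helper50.SR
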