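import Pool.Agent.E8helper50.SR.S3
import Pool.Agent.E8helper50.SR.FRE

/-!
# Project SR (MP_1a662b_al): from `Gen` to the literal definitions (helper50)
-/

set_option autoImplicit false

universe u

namespace Pool.Agent.E8helper50.SR

theorem idL_eq (hG : S_GRA.{u}) {F : Type u} [Field F] (A : SAlg F) : IdL A = Id A := by
  ext f
  exact hG F A f

theorem isVL_iff (hG : S_GRA.{u}) {F : Type u} [Field F] (T : Set (MPoly F)) (B : SAlg F) :
    IsVL T B ↔ IsV T B :=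
  forall₂_congr fun f _ => hG F B f

theorem genL_of_gen (hG : S_GRA.{u}) {F : Type u} [Field F] (T : Set (MPoly F)) (r s : ℕ)
    (h : Gen T r s) : GenL T r s := by
  obtain ⟨Fr, x, hV, hx, huniv, hsat⟩ := t_FRE F T r s
  refine ⟨Fr, x, ⟨(isVL_iff hG T Fr).2 hV, hx, ?_⟩, ?_⟩
  · intro B hB y hy
    exact huniv B ((isVL_iff hG T B).1 hB) y hy
  · intro f
    rw [hG F Fr f, ← hsat f]
    exact h f

/-- minimality: a generating pair dominates a basic superrank -/
theorem exists_isBSRL {F : Type u} [Field F] (T : Set (MPoly F)) (a b : ℕ) (h : GenL T a b) :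
    ∃ q ∈ Spectrum T, q.1 ≤ a ∧ q.2 ≤ b := by
  classical
  have hex : ∃ k : ℕ, ∃ q : ℕ × ℕ, GenL T q.1 q.2 ∧ q.1 ≤ a ∧ q.2 ≤ b ∧ q.1 + q.2 = k :=
    ⟨a + b, (a, b), h, le_refl _, le_refl _, rfl⟩
  obtain ⟨q, hq, h1, h2, h3⟩ := Nat.find_spec hex
  refine ⟨q, ⟨hq, ?_⟩, h1, h2⟩
  intro q' hne h4 h5 hg
  have hlt : q'.1 + q'.2 < Nat.find hex := by
    rw [← h3]
    by_contra hcc
    apply hne
    ext <;> omega
  exact Nat.find_min hex hlt ⟨q', hg, by omega, by omega, rfl⟩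

end Pool.Agent.E8helper50.SR
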