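import Pool.Agent.E8helper50.SR.LIT
import Pool.Agent.E8helper50.SR.ASM
import Pool.Agent.E8helper38.SR.MAT
import Pool.Agent.E8helper13.SR.TWO
import Pool.Agent.E8helper66.SR.TWA
import Pool.Agent.E8helper31.SR.NIL
import Pool.Agent.E8helper78.SR.KSG
import Pool.Agent.E8helper45.SR.EPX
import Pool.Agent.E8helper64.SR.EPS
import Pool.Agent.E8helper63.SR.Epm
import Pool.Agent.E8helper82.SR.SPN
import Pool.Agent.E8helper9.SR.BC
import Pool.Agent.E8helper63.SR.Rs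
import Pool.Agent.E8helper51.SR.FIN
import Pool.Agent.E8helper78.SR.GRS
import Pool.Agent.E8helper70.SR.GRN
import Pool.Agent.E8helper78.SR.GRA

/-!
# Project SR, part 1 (helper50)
-/

set_option autoImplicit false

universe u

namespace Pool.Agent.E8helper50.SR

theorem p_EPS : S_EPS.{u} :=
  Pool.Agent.E8helper64.SR.t_EPS Pool.Agent.E8helper45.SR.t_EPX Pool.Agent.E8helper78.SR.t_KSG

theorem p_ASM : S_ASM.{u} :=
  t_ASM (Pool.Agent.E8helper66.SR.t_TWA (Pool.Agent.E8helper13.SR.t_TWO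
    Pool.Agent.E8helper38.SR.t_MAT)) Pool.Agent.E8helper31.SR.t_NIL
    (Pool.Agent.E8helper63.SR.t_EPM p_EPS) Pool.Agent.E8helper82.SR.t_SPN

theorem p_MNF : S_MNF.{u} :=
  Pool.Agent.E8helper63.SR.t_MNF p_ASM Pool.Agent.E8helper9.SR.t_BC Pool.Agent.E8helper63.SR.t_RS

theorem p_GRA : S_GRA.{u} :=
  Pool.Agent.E8helper78.SR.t_GRA Pool.Agent.E8helper78.SR.t_GRS Pool.Agent.E8helper70.SR.t_GRN

/-- `(2, N)` generates, for some `N` -/
theorem part1 (F : Type u) [Field F] (A : SAlg F) [Module.Finite F A] :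
    ∃ N : ℕ, GenL (IdL A) 2 N := by
  obtain ⟨⟨N, hN⟩, _⟩ := Pool.Agent.E8helper51.SR.t_FIN p_MNF F A
  refine ⟨N, ?_⟩
  rw [idL_eq p_GRA]
  exact genL_of_gen p_GRA _ _ _ hN

end Pool.Agent.E8helper50.SR
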