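import Pool.Agent.E8helper50.SR.Part1
import Pool.Agent.E8helper50.SR.AS2
import Pool.Agent.E8helper82.SR.QSP
import Pool.Agent.E8helper40.SR.QM0
import Pool.Agent.E8helper47.SR.QUN
import Pool.Agent.E8helper52.SR.QON
import Pool.Agent.E8helper71.SR.QCY
import Pool.Agent.E8helper99.SR.ONE
import Pool.Agent.E8helper36.SR.EPT
import Pool.Agent.E8helper79.SR.MF2
import Pool.Agent.E8helper7.SR.FN2

/-!
# Project SR, part 2 (helper50)
-/

set_option autoImplicit false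

universe u

namespace Pool.Agent.E8helper50.SR

theorem p_QCY : S_QCY.{u} :=
  Pool.Agent.E8helper71.SR.t_QCY Pool.Agent.E8helper40.SR.t_QM0 Pool.Agent.E8helper47.SR.t_QUN
    Pool.Agent.E8helper52.SR.t_QON

theorem p_AS2 : S_AS2.{u} :=
  t_AS2 (Pool.Agent.E8helper99.SR.t_ONE t_QSP p_QCY)
    (Pool.Agent.E8helper36.SR.t_EPT Pool.Agent.E8helper45.SR.t_EPX Pool.Agent.E8helper78.SR.t_KSG)
    Pool.Agent.E8helper82.SR.t_SPN

theorem p_MF2 : S_MF2.{u} :=
  Pool.Agent.E8helper79.SR.t_MF2 p_AS2 Pool.Agent.E8helper9.SR.t_BC Pool.Agent.E8helper63.SR.t_RS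

/-- `(N, 1)` generates, for some `N` -/
theorem part2 (F : Type u) [Field F] (A : SAlg F) [Module.Finite F A] :
    ∃ N : ℕ, GenL (IdL A) N 1 := by
  obtain ⟨N, hN⟩ := Pool.Agent.E8helper7.SR.t_FN2 p_MF2 F A
  refine ⟨N, ?_⟩
  rw [idL_eq p_GRA]
  exact genL_of_gen p_GRA _ _ _ hN

end Pool.Agent.E8helper50.SR
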