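import Pool.Agent.E8helper50.SR.S0

/-!
# MP_1a662b_al: Grassmann envelopes, free superalgebras, basic superranks (helper50)
-/

set_option autoImplicit false

universe u v

open scoped TensorProduct

namespace Pool.Agent.E8helper50.SR

/-- the Grassmann algebra on countably many generators -/
noncomputable abbrev Gr (F : Type u) [Field F] : Type u := ExteriorAlgebra F (ℕ →₀ F)

/-- its even (`i = 0`) and odd (`i = 1`) parts: spanned by the products of `j` vectors,
`j ≡ i` mod 2 -/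
noncomputable abbrev GrPart (F : Type u) [Field F] (i : ZMod 2) : Submodule F (Gr F) :=
  CliffordAlgebra.evenOdd (0 : QuadraticForm F (ℕ →₀ F)) i

/-- The Grassmann envelope `G(A) = G₀ ⊗ A₀ + G₁ ⊗ A₁`. -/
noncomputable def Env {F : Type u} [Field F] (A : SAlg F) : Submodule F (Gr F ⊗[F] A) :=
  Submodule.span F {t | ∃ (i : ZMod 2) (g : Gr F) (a : A), g ∈ GrPart F i ∧ a ∈ A.gr i ∧
    t = g ⊗ₜ[F] a}

/-- `G(A)` satisfies the multilinear identity `f` -/
def EnvSat {F : Type u} [Field F] (A : SAlg F) (f : MPoly F) : Prop :=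
  ∀ u : Fin (f.n + 1) → Gr F ⊗[F] A, (∀ i, u i ∈ Env A) → ev f u = 0

/-- `B` is a `V`-superalgebra (`T` = the multilinear identities of `V`): `G(B) ∈ V`. -/
def IsVL {F : Type u} [Field F] (T : Set (MPoly F)) (B : SAlg F) : Prop := ∀ f ∈ T, EnvSat B f

/-- `Fr` is the free `V`-superalgebra on the even generators `x (inl i)`, `i < r`, and the odd
generators `x (inr j)`, `j < s`. -/
def IsFreeL {F : Type u} [Field F] (T : Set (MPoly F)) (r s : ℕ) (Fr : SAlg F)
    (x : Fin r ⊕ Fin s → Fr) : Prop :=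
  IsVL T Fr ∧ (∀ i, x i ∈ Fr.gr (gpar i)) ∧
    ∀ B : SAlg F, IsVL T B → ∀ y : Fin r ⊕ Fin s → B, (∀ i, y i ∈ B.gr (gpar i)) →
      ∃! φ : Fr →ₙₐ[F] B, (∀ p, ∀ z ∈ Fr.gr p, φ z ∈ B.gr p) ∧ ∀ i, φ (x i) = y i

/-- `V = var (G (F_{r,s}(V)))` -/
def GenL {F : Type u} [Field F] (T : Set (MPoly F)) (r s : ℕ) : Prop :=
  ∃ (Fr : SAlg F) (x : Fin r ⊕ Fin s → Fr), IsFreeL T r s Fr x ∧ ∀ f, EnvSat Fr f ↔ f ∈ T

/-- the set of multilinear identities of the Grassmann envelope `G(A)`; in characteristic 0 it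
determines the variety `var (G(A))` -/
def IdL {F : Type u} [Field F] (A : SAlg F) : Set (MPoly F) := {f | EnvSat A f}

/-- `q = (r, s)` is a basic superrank of the variety `V` whose multilinear identities are `T` -/
def IsBSRL {F : Type u} [Field F] (T : Set (MPoly F)) (q : ℕ × ℕ) : Prop :=
  GenL T q.1 q.2 ∧ ∀ q' : ℕ × ℕ, q' ≠ q → q'.1 ≤ q.1 → q'.2 ≤ q.2 → ¬ GenL T q'.1 q'.2

/-- the basic spectrum -/
def Spectrum {F : Type u} [Field F] (T : Set (MPoly F)) : Set (ℕ × ℕ) := {q | IsBSRL T q}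

/-- The `F`-superalgebra `A` is representable: it embeds (as a graded ring, compatibly with the
scalars of `F`) into a finite-dimensional superalgebra over an extension field `L` of `F`. -/
def Representable {F : Type u} [Field F] (A : SAlg F) : Prop :=
  ∃ (L : Type u) (_ : Field L) (_ : Algebra F L) (C : SAlg L) (e : A → C),
    Module.Finite L C ∧ Function.Injective e ∧ (∀ x y, e (x + y) = e x + e y) ∧
      (∀ x y, e (x * y) = e x * e y) ∧ (∀ (c : F) (x : A), e (c • x) = algebraMap F L c • e x) ∧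
      ∀ (i : ZMod 2), ∀ x ∈ A.gr i, e x ∈ C.gr i

end Pool.Agent.E8helper50.SR
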