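import Pool.Agent.E8helper50.SR.S4
import Pool.Agent.E8helper50.SR.SL

/-!
# Project SR (MP_1a662b_al), part 3: representable superalgebras (helper50)
-/

set_option autoImplicit false

universe u v

namespace Pool.Agent.E8helper50.SR

/-- piece REP: a representable superalgebra satisfies the same identities as a superalgebra
finite-dimensional over the extension field (the `L`-span of the image). -/
def S_REP : Prop :=
  ∀ (F : Type u) [Field F] (A : SAlg F), Representable A →
    ∃ (L : Type u) (_ : Field L) (_ : Algebra F L) (C : SAlg L), Module.Finite L C ∧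
      ∀ f : MPoly F, Sat A f ↔ Sat C (f.map : MPoly L)

/-- piece MNR (from ASM, AS2, BC, RS, REP) -/
def S_MNR : Prop :=
  ∀ (F : Type u) [Field F] (A : SAlg F), Representable A →
    (∃ N : ℕ, MainRS A 2 N) ∧ ∃ N : ℕ, MainRS A N 1

end Pool.Agent.E8helper50.SR
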