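import Pool.Agent.E8helper50.SR.Part2
import Pool.Agent.E8helper50.SR.S5
import Pool.Agent.E8helper91.SR.REP
import Pool.Agent.E8helper70.SR.MNR

/-!
# Project SR, part 3: representable superalgebras (helper50)
-/

set_option autoImplicit false

universe u

namespace Pool.Agent.E8helper50.SR

theorem p_MNR : S_MNR.{u} :=
  Pool.Agent.E8helper70.SR.t_MNR p_ASM p_AS2 Pool.Agent.E8helper9.SR.t_BC
    Pool.Agent.E8helper63.SR.t_RS Pool.Agent.E8helper91.SR.t_REP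

theorem part3 (F : Type u) [Field F] (A : SAlg F) (hA : Representable A) :
    (∃ N : ℕ, GenL (IdL A) 2 N) ∧ ∃ N : ℕ, GenL (IdL A) N 1 := by
  obtain ⟨⟨N, hN⟩, ⟨N', hN'⟩⟩ := p_MNR F A hA
  refine ⟨⟨N, ?_⟩, ⟨N', ?_⟩⟩
  · rw [idL_eq p_GRA]
    exact genL_of_gen p_GRA _ _ _ (Pool.Agent.E8helper7.SR.gen_of_mainRS A hN)
  · rw [idL_eq p_GRA]
    exact genL_of_gen p_GRA _ _ _ (Pool.Agent.E8helper7.SR.gen_of_mainRS A hN')

end Pool.Agent.E8helper50.SR
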