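import Mathlib

/-!
# MP_1a662b_al: superalgebras and multilinear polynomials (helper50)

Superalgebras need not be unital.
-/

set_option autoImplicit false

universe u v

namespace Pool.Agent.E8helper50.SR

/-- An associative superalgebra over `F`, not necessarily unital. -/
structure SAlg (F : Type u) [Field F] where
  carrier : Type u
  [ring : NonUnitalRing carrier]
  [mod : Module F carrier]
  [tow : IsScalarTower F carrier carrier]
  [com : SMulCommClass F carrier carrier]
  /-- even part `gr 0`, odd part `gr 1` -/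
  gr : ZMod 2 → Submodule F carrier
  compl : IsCompl (gr 0) (gr 1)
  mul_mem : ∀ (i j : ZMod 2) (a b : carrier), a ∈ gr i → b ∈ gr j → a * b ∈ gr (i + j)

instance {F : Type u} [Field F] : CoeSort (SAlg F) (Type u) := ⟨SAlg.carrier⟩

attribute [instance] SAlg.ring SAlg.mod SAlg.tow SAlg.com

/-- A multilinear (noncommutative, associative) polynomial of degree `n + 1`:
`∑ σ, c σ • x (σ 0) * ⋯ * x (σ n)`. -/
structure MPoly (F : Type u) where
  n : ℕ
  c : Equiv.Perm (Fin (n + 1)) → F

/-- the product `x 0 * x 1 * ⋯ * x n` -/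
def wprod {R : Type v} [Mul R] : (n : ℕ) → (Fin (n + 1) → R) → R
  | 0, x => x 0
  | n + 1, x => wprod n (fun i => x i.castSucc) * x (Fin.last (n + 1))

/-- ordinary evaluation of a multilinear polynomial -/
def ev {F : Type u} [Field F] {R : Type v} [NonUnitalRing R] [Module F R] (f : MPoly F)
    (a : Fin (f.n + 1) → R) : R :=
  ∑ σ : Equiv.Perm (Fin (f.n + 1)), f.c σ • wprod f.n (fun i => a (σ i))

/-- parity of the free generators: `r` even ones, `s` odd ones -/
def gpar {r s : ℕ} : Fin r ⊕ Fin s → ZMod 2
  | Sum.inl _ => 0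
  | Sum.inr _ => 1

end Pool.Agent.E8helper50.SR
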