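import Pool.Agent.E8helper50.SR.S
import Pool.Agent.E8helper50.SR.SL

/-!
# Project SR (MP_1a662b_al): literal Grassmann envelopes and free superalgebras (helper50)
-/

set_option autoImplicit false

universe u v

open scoped TensorProduct

namespace Pool.Agent.E8helper50.SR

/-- piece GRS: products of homogeneous elements of the Grassmann algebra -/
def S_GRS : Prop :=
  ∀ (F : Type u) [Field F] (n : ℕ) (p : Fin (n + 1) → ZMod 2) (g : Fin (n + 1) → Gr F)
    (σ : Equiv.Perm (Fin (n + 1))), (∀ i, g i ∈ GrPart F (p i)) →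
    wprod n (fun i => g (σ i)) = ksgn p σ • wprod n g

/-- piece GRN: nonvanishing products -/
def S_GRN : Prop :=
  ∀ (F : Type u) [Field F] (n : ℕ) (p : Fin (n + 1) → ZMod 2),
    ∃ g : Fin (n + 1) → Gr F, (∀ i, g i ∈ GrPart F (p i)) ∧ wprod n g ≠ 0

/-- piece GRA (from GRS and GRN): `G(A)` satisfies `f` iff `A` satisfies its superization -/
def S_GRA : Prop := ∀ (F : Type u) [Field F] (A : SAlg F) (f : MPoly F), EnvSat A f ↔ Sat A f

/-- piece FRE: existence of the free superalgebra (stated for `Sat`) -/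
def S_FRE : Prop :=
  ∀ (F : Type u) [Field F] (T : Set (MPoly F)) (r s : ℕ),
    ∃ (Fr : SAlg F) (x : Fin r ⊕ Fin s → Fr), IsV T Fr ∧ (∀ i, x i ∈ Fr.gr (gpar i)) ∧
      (∀ B : SAlg F, IsV T B → ∀ y : Fin r ⊕ Fin s → B, (∀ i, y i ∈ B.gr (gpar i)) →
        ∃! φ : Fr →ₙₐ[F] B, (∀ p, ∀ z ∈ Fr.gr p, φ z ∈ B.gr p) ∧ ∀ i, φ (x i) = y i) ∧
      ∀ f, FreeSat T r s f ↔ Sat Fr f

end Pool.Agent.E8helper50.SR
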