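import Pool.Agent.E8helper50.SR.S

/-!
# Project SR (MP_1a662b_al), part 2: generation by one odd element (helper50)
-/

set_option autoImplicit false

universe u v

namespace Pool.Agent.E8helper50.SR

/-- if `f` fails in `A` it fails, on words in `r` even and `s` odd elements, in a superalgebra
satisfying everything `A` satisfies -/
def MainRS {F : Type u} [Field F] (A : SAlg F) (r s : ℕ) : Prop :=
  ∀ f : MPoly F, ¬ Sat A f → ∃ M : SAlg F, (∀ g : MPoly F, Sat A g → Sat M g) ∧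
    ∃ x : Fin r ⊕ Fin s → M, (∀ i, x i ∈ M.gr (gpar i)) ∧
      ∃ w : Fin (f.n + 1) → FreeSemigroup (Fin r ⊕ Fin s),
        sev f (fun i => wpar (w i)) (fun i => FreeSemigroup.lift x (w i)) ≠ 0

/-- graded semiprime -/
def GSP {F : Type u} [Field F] (B : SAlg F) : Prop :=
  ∀ (i : ZMod 2), ∀ z ∈ B.gr i, z ≠ 0 → ∃ (j : ZMod 2), ∃ w ∈ B.gr j, z * w * z ≠ 0

/-- piece QSP: the quotient by the largest nilpotent graded ideal. -/
def S_QSP : Prop :=
  ∀ (F : Type u) [Field F] (A : SAlg F) [Module.Finite F A],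
    ∃ (B : SAlg F) (π : A →ₗ[F] B) (m : ℕ), Module.Finite F B ∧ GSP B ∧
      Function.Surjective π ∧ (∀ x y, π (x * y) = π x * π y) ∧
      (∀ (i : ZMod 2), ∀ x ∈ A.gr i, π x ∈ B.gr i) ∧
      ∀ z : Fin (m + 1) → A, (∀ i, π (z i) = 0) → wprod m z = 0

/-- piece QM0: the even part of a finite-dimensional graded semiprime superalgebra is a product
of matrix algebras -/
def S_QM0 : Prop :=
  ∀ (K : Type u) [Field K] [IsAlgClosed K] (B : SAlg K) [Module.Finite K B], GSP B →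
    ∃ (k : ℕ) (d : Fin k → ℕ) (φ : (∀ i : Fin k, Matrix (Fin (d i)) (Fin (d i)) K) →ₗ[K] B),
      (∀ x y, φ (x * y) = φ x * φ y) ∧ Function.Injective φ ∧ LinearMap.range φ = B.gr 0

/-- piece QUN: the unit of the even part is a unit of `B` -/
def S_QUN : Prop :=
  ∀ (F : Type u) [Field F] (B : SAlg F), GSP B → ∀ u ∈ B.gr 0,
    (∀ x ∈ B.gr 0, u * x = x ∧ x * u = x) → ∀ x : B, u * x = x ∧ x * u = x

/-- piece QON: multiplicities are at most one: for idempotents `e`, `f` of the even part with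
`e B₀ e`, `f B₀ f` one-dimensional and `f B₀ e` at most one-dimensional spanned by `g` with
`g' g` a multiple... : `e B₁ f` is at most one-dimensional -/
def S_QON : Prop :=
  ∀ (F : Type u) [Field F] (B : SAlg F), GSP B → ∀ e ∈ B.gr 0, ∀ f ∈ B.gr 0,
    e * e = e → f * f = f → (∀ x ∈ B.gr 0, ∃ c : F, e * x * e = c • e) →
    (∀ x ∈ B.gr 0, ∃ c : F, f * x * f = c • f) →
    ∃ y ∈ B.gr 1, e * y * f = y ∧ ∀ x ∈ B.gr 1, ∃ c : F, e * x * f = c • y

/-- piece QCY (from QM0, QUN, QON): the odd part is a cyclic bimodule -/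
def S_QCY : Prop :=
  ∀ (K : Type u) [Field K] [IsAlgClosed K] (B : SAlg K) [Module.Finite K B], GSP B →
    ∃ y ∈ B.gr 1, ∀ x ∈ B.gr 1, x ∈ Submodule.span K {z : B | ∃ a ∈ B.gr 0, ∃ b ∈ B.gr 0,
      z = a * y * b}

/-- piece ONE (from QSP, QCY) -/
def S_ONE : Prop :=
  ∀ (K : Type u) [Field K] [IsAlgClosed K] (A : SAlg K) [Module.Finite K A],
    ∃ y ∈ A.gr 1, ∃ (J : Submodule K A) (m : ℕ), J ≤ A.gr 1 ∧
      (∀ (n : ℕ) (x : Fin (n + 1) → A) (D : Finset (Fin (n + 1))),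
        (∀ i ∈ D, x i ∈ J) → m + 1 ≤ D.card → wprod n x = 0) ∧
      ∀ x ∈ A.gr 1, x ∈ Submodule.span K {z : A | ∃ a ∈ A.gr 0, ∃ b ∈ A.gr 0, z = a * y * b} ⊔ J

/-- piece EPT: as EPM, but odd letters are replaced by even elements. -/
def S_EPT : Prop :=
  ∀ (F : Type u) [Field F] (A : SAlg F) (f : MPoly F) (p : Fin (f.n + 1) → ZMod 2)
    (a : Fin (f.n + 1) → A) (D : Finset (Fin (f.n + 1))),
    (∀ i, a i ∈ A.gr (p i)) → (∀ i ∈ D, p i = 1) → sev f p a ≠ 0 →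
    ∃ (A' : SAlg F) (ι : A →ₗ[F] A') (y : Fin (f.n + 1) → A'),
      (∀ x y, ι (x * y) = ι x * ι y) ∧ (∀ (i : ZMod 2), ∀ x ∈ A.gr i, ι x ∈ A'.gr i) ∧
      (∀ g : MPoly F, Sat A g → Sat A' g) ∧ (∀ i, y i ∈ A'.gr 0) ∧
      sev f (fun i => if i ∈ D then 0 else p i) (fun i => if i ∈ D then y i else ι (a i)) ≠ 0

/-- piece AS2 (from ONE, EPT, SPN) -/
def S_AS2 : Prop :=
  ∀ (K : Type u) [Field K] [IsAlgClosed K] (A : SAlg K) [Module.Finite K A],
    ∃ N : ℕ, MainRS A N 1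

/-- piece MF2 (from AS2, BC, RS) -/
def S_MF2 : Prop := ∀ (F : Type u) [Field F] (A : SAlg F) [Module.Finite F A],
  ∃ N : ℕ, MainRS A N 1

/-- piece FN2 (from MF2) -/
def S_FN2 : Prop :=
  ∀ (F : Type u) [Field F] (A : SAlg F) [Module.Finite F A], ∃ N : ℕ, Gen (Id A) N 1

end Pool.Agent.E8helper50.SR
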